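import Pool.Agent.helper45.SGC.Spec

/-!
# sy:CNB: sets of pairs with a given pattern
-/

set_option autoImplicit false

namespace Pool.Agent.SGC

open Finset Pool.Agent.helper38.Neg Pool.Agent.helper55.NT

/-- the pairs contained in `T` -/
def CNB_Q {h : ℕ} (T : Finset (Fin h × Fin 2)) : Finset (Fin h) :=
  univ.filter fun p => (p, 0) ∈ T ∧ (p, 1) ∈ T

theorem CNB_card {h : ℕ} (T : Finset (Fin h × Fin 2)) :
    T.card = (pat (Equiv.refl _) T).card + 2 * (CNB_Q T).card := by
  have h1 : T.card = ∑ p : Fin h, ((if (p, (0 : Fin 2)) ∈ T then 1 else 0) +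
      (if (p, (1 : Fin 2)) ∈ T then 1 else 0)) := by
    calc T.card = ∑ x : Fin h × Fin 2, if x ∈ T then 1 else 0 := by
          rw [← Finset.card_filter]
          simp
      _ = _ := by
          rw [Fintype.sum_prod_type]
          simp only [Fin.sum_univ_two]
  rw [h1, pat, CNB_Q, Finset.card_filter, Finset.card_filter, Finset.mul_sum,
    ← Finset.sum_add_distrib]
  refine Finset.sum_congr rfl fun p _ => ?_
  simp only [Equiv.refl_apply]
  by_cases h0 : (p, (0 : Fin 2)) ∈ T <;> by_cases h2 : (p, (1 : Fin 2)) ∈ T <;> simp [h0, h2]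

theorem CNB_mem {h : ℕ} {T : Finset (Fin h × Fin 2)} {S : Finset (Fin h)}
    (hS : pat (Equiv.refl _) T = S) (p : Fin h) :
    p ∈ S ↔ ¬ ((p, (0 : Fin 2)) ∈ T ↔ (p, (1 : Fin 2)) ∈ T) := by
  rw [← hS, pat, Finset.mem_filter]
  simp

theorem CNB_memQ {h : ℕ} (T : Finset (Fin h × Fin 2)) (p : Fin h) :
    p ∈ CNB_Q T ↔ ((p, (0 : Fin 2)) ∈ T ∧ (p, (1 : Fin 2)) ∈ T) := by
  rw [CNB_Q, Finset.mem_filter]
  simp

theorem CNB : CNB_stmt := by
  intro h τ S
  rcases Finset.eq_empty_or_nonempty (univ.filter fun T' : Finset (Fin h × Fin 2) =>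
    T'.card = τ ∧ pat (Equiv.refl _) T' = S) with he | ⟨T0, hT0⟩
  · left
    rw [he]
    rfl
  · right
    have hT0' := (Finset.mem_filter.1 hT0).2
    refine ⟨(CNB_Q T0).card, ?_, ?_⟩
    · rw [← hT0'.1, CNB_card T0, hT0'.2]
    · have key : (univ.filter fun T' : Finset (Fin h × Fin 2) =>
          T'.card = τ ∧ pat (Equiv.refl _) T' = S).card ≤
          (S.powerset ×ˢ powersetCard (CNB_Q T0).card Sᶜ).card := by
        refine Finset.card_le_card_of_injOn
          (fun T => (S.filter (fun p => (p, (0 : Fin 2)) ∈ T), CNB_Q T)) ?_ ?_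
        · intro T hT
          have hT' := (Finset.mem_filter.1 hT).2
          simp only [Finset.coe_product, Set.mem_prod, Finset.mem_coe, Finset.mem_powerset,
            Finset.mem_powersetCard]
          refine ⟨Finset.filter_subset _ _, ?_, ?_⟩
          · intro p hp
            rw [Finset.mem_compl, CNB_mem hT'.2]
            rw [CNB_memQ] at hp
            tauto
          · have h1 := CNB_card T
            have h2 := CNB_card T0
            rw [hT'.1, hT'.2] at h1
            rw [hT0'.1, hT0'.2] at h2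
            omega
        · intro T hT U hU hTU
          have hT' := (Finset.mem_filter.1 hT).2
          have hU' := (Finset.mem_filter.1 hU).2
          simp only [Prod.mk.injEq] at hTU
          obtain ⟨h1, h2⟩ := hTU
          have hQ : ∀ p, ((p, (0 : Fin 2)) ∈ T ∧ (p, (1 : Fin 2)) ∈ T) ↔
              ((p, (0 : Fin 2)) ∈ U ∧ (p, (1 : Fin 2)) ∈ U) := by
            intro p
            rw [← CNB_memQ, ← CNB_memQ, h2]
          have hF : ∀ p, (p ∈ S ∧ (p, (0 : Fin 2)) ∈ T) ↔ (p ∈ S ∧ (p, (0 : Fin 2)) ∈ U) := by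
            intro p
            have h3 : p ∈ S.filter (fun p => (p, (0 : Fin 2)) ∈ T) ↔
                p ∈ S.filter (fun p => (p, (0 : Fin 2)) ∈ U) := by rw [h1]
            rwa [Finset.mem_filter, Finset.mem_filter] at h3
          have hst : ∀ p, p ∈ S ↔ ¬ ((p, (0 : Fin 2)) ∈ T ↔ (p, (1 : Fin 2)) ∈ T) :=
            CNB_mem hT'.2
          have hsu : ∀ p, p ∈ S ↔ ¬ ((p, (0 : Fin 2)) ∈ U ↔ (p, (1 : Fin 2)) ∈ U) :=
            CNB_mem hU'.2
          ext ⟨p, i⟩
          have a1 := hQ p
          have a2 := hF p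
          have a3 := hst p
          have a4 := hsu p
          fin_cases i
          · show (p, (0 : Fin 2)) ∈ T ↔ (p, (0 : Fin 2)) ∈ U
            tauto
          · show (p, (1 : Fin 2)) ∈ T ↔ (p, (1 : Fin 2)) ∈ U
            tauto
      rw [Finset.card_product, Finset.card_powerset, Finset.card_powersetCard,
        Finset.card_compl, Fintype.card_fin] at key
      exact key

end Pool.Agent.SGC
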